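import Pool.Agent.Helper35.OG.Map

/-!
# The face defect of a map
-/

set_option autoImplicit false

namespace Pool.Agent.Helper58.OG

open Pool.Agent.Helper35.OG

variable {V : Type} {G : SimpleGraph V}

/-- The faces which have a corner at which the orientations of the edge bands disagree. -/
def badFaces (M : GMap G) (κ : Flag G → ZMod 2) : Set M.Face := {f | ∃ p, Quot.mk _ p = f ∧ κ (M.nxt p) = κ p}

/-- The smallest number of faces with bad corners over all orientations of the edge bands. -/
noncomputable def faceDefect (M : GMap G) : ℕ := sInf {n | ∃ κ, IsBand κ ∧ Nat.card (badFaces M κ) = n}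

end Pool.Agent.Helper58.OG
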