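import Pool.Agent.Helper35.OG.Multi

/-!
# Even sets of edges supported near a basis of the rows of the adjacency matrix
-/

set_option autoImplicit false

open Finset

namespace Pool.Agent.Helper58.OG

open Pool.Agent.Helper35.OG

variable {X E : Type} [Fintype X] [DecidableEq X] [Fintype E] [DecidableEq E]
variable (a b : E → X)

/-- `A` is in the kernel of the adjacency matrix of `lam`. -/
def InKer (lam : Finset E) (A : X → F2) : Prop := ∀ v, ∑ u, adj a b lam v u * A u = 0

private theorem sum_adj (lam : Finset E) (A : X → F2) (v : X) : ∑ u, adj a b lam v u * A u =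
    ∑ e, ind lam e * ((if a e = v then A (b e) else 0) + (if b e = v then A (a e) else 0)) := by
  have h1 : ∀ u, adj a b lam v u * A u = ∑ e, ind lam e *
      ((if a e = v ∧ b e = u then A u else 0) + (if a e = u ∧ b e = v then A u else 0)) := by
    intro u
    show (∑ e, ind lam e * ((if a e = v ∧ b e = u then 1 else 0) + (if a e = u ∧ b e = v then 1 else 0))) * A u = _
    rw [Finset.sum_mul]
    apply Finset.sum_congr rfl
    intro e _
    rw [mul_assoc, add_mul, ite_mul, ite_mul, one_mul, zero_mul]
  rw [Finset.sum_congr rfl (fun u _ => h1 u), Finset.sum_comm]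
  apply Finset.sum_congr rfl
  intro e _
  rw [← Finset.mul_sum, Finset.sum_add_distrib]
  congr 2
  · by_cases h : a e = v
    · simp [h]
    · simp [h]
  · by_cases h : b e = v
    · simp [h]
    · simp [h]

/-- `InKer` in terms of the edges. -/
theorem inKer_iff (lam : Finset E) (A : X → F2) : InKer a b lam A ↔
    ∀ v, ∑ e, ind lam e * ((if a e = v then A (b e) else 0) + (if b e = v then A (a e) else 0)) = 0 := by
  unfold InKer
  simp only [sum_adj]

theorem inKer_one {lam : Finset E} (h : bd a b (ind lam) = 0) : InKer a b lam (fun _ => 1) := by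
  rw [inKer_iff]
  intro v
  exact congrFun h v

theorem inKer_zero (lam : Finset E) : InKer a b lam (fun _ => 0) := by
  intro v
  simp

theorem inKer_add {lam : Finset E} {A B : X → F2} (hA : InKer a b lam A) (hB : InKer a b lam B) :
    InKer a b lam (fun x => A x + B x) := by
  intro v
  simp only [mul_add, Finset.sum_add_distrib]
  rw [hA v, hB v, add_zero]

theorem inKer_sum {lam : Finset E} {ι : Type} (s : Finset ι) {A : ι → X → F2} (hA : ∀ i ∈ s, InKer a b lam (A i)) :
    InKer a b lam (fun x => ∑ i ∈ s, A i x) := by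
  intro v
  simp only [Finset.mul_sum]
  rw [Finset.sum_comm]
  apply Finset.sum_eq_zero
  intro i hi
  exact hA i hi v

/-- The edges inside the support of `A`. -/
def qq (lam : Finset E) (A : X → F2) (e : E) : F2 := ind lam e * (A (a e) * A (b e))

/-- The polarisation of `qq`. -/
def pol (lam : Finset E) (A B : X → F2) (e : E) : F2 := ind lam e * (A (a e) * B (b e) + B (a e) * A (b e))

theorem qq_add (lam : Finset E) (A B : X → F2) :
    qq a b lam (fun x => A x + B x) = qq a b lam A + qq a b lam B + pol a b lam A B := by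
  funext e
  show ind lam e * ((A (a e) + B (a e)) * (A (b e) + B (b e))) =
    ind lam e * (A (a e) * A (b e)) + ind lam e * (B (a e) * B (b e)) +
      ind lam e * (A (a e) * B (b e) + B (a e) * A (b e))
  ring

theorem pol_sum (lam : Finset E) (A : X → F2) {ι : Type} (s : Finset ι) (B : ι → X → F2) :
    pol a b lam A (fun x => ∑ i ∈ s, B i x) = ∑ i ∈ s, pol a b lam A (B i) := by
  funext e
  rw [Finset.sum_apply]
  unfold pol
  rw [Finset.mul_sum, Finset.sum_mul, ← Finset.sum_add_distrib, Finset.mul_sum]

theorem bd_pol {lam : Finset E} {A B : X → F2} (hA : InKer a b lam A) (hB : InKer a b lam B) :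
    bd a b (pol a b lam A B) = 0 := by
  rw [inKer_iff] at hA hB
  funext v
  show ∑ e, (ind lam e * (A (a e) * B (b e) + B (a e) * A (b e))) *
    ((if a e = v then 1 else 0) + (if b e = v then 1 else 0)) = 0
  calc _ = ∑ e, (A v * (ind lam e * ((if a e = v then B (b e) else 0) + (if b e = v then B (a e) else 0))) +
      B v * (ind lam e * ((if a e = v then A (b e) else 0) + (if b e = v then A (a e) else 0)))) := by
        apply Finset.sum_congr rfl
        intro e _
        by_cases h1 : a e = v <;> by_cases h2 : b e = v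
        · rw [if_pos h1, if_pos h2, if_pos h1, if_pos h2, if_pos h1, if_pos h2, h1, h2]; ring
        · rw [if_pos h1, if_neg h2, if_pos h1, if_neg h2, if_pos h1, if_neg h2, h1]; ring
        · rw [if_neg h1, if_pos h2, if_neg h1, if_pos h2, if_neg h1, if_pos h2, h2]; ring
        · rw [if_neg h1, if_neg h2, if_neg h1, if_neg h2, if_neg h1, if_neg h2]; ring
    _ = 0 := by
        rw [Finset.sum_add_distrib, ← Finset.mul_sum, ← Finset.mul_sum, hA v, hB v, mul_zero, mul_zero, add_zero]

theorem bd_qq {lam : Finset E} {A : X → F2} (hA : InKer a b lam A) : bd a b (qq a b lam A) = 0 := by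
  rw [inKer_iff] at hA
  funext v
  show ∑ e, (ind lam e * (A (a e) * A (b e))) * ((if a e = v then 1 else 0) + (if b e = v then 1 else 0)) = 0
  calc _ = ∑ e, (A v * (ind lam e * ((if a e = v then A (b e) else 0) + (if b e = v then A (a e) else 0)))) := by
        apply Finset.sum_congr rfl
        intro e _
        by_cases h1 : a e = v <;> by_cases h2 : b e = v
        · rw [if_pos h1, if_pos h2, if_pos h1, if_pos h2, h1, h2]; ring
        · rw [if_pos h1, if_neg h2, if_pos h1, if_neg h2, h1]; ring
        · rw [if_neg h1, if_pos h2, if_neg h1, if_pos h2, h2]; ring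
        · rw [if_neg h1, if_neg h2, if_neg h1, if_neg h2]; ring
    _ = 0 := by rw [← Finset.mul_sum, hA v, mul_zero]

/-- a basis of the functions modulo the kernel, and the kernel vectors attached to the other points -/
theorem exists_basis (lam : Finset E) : ∃ B : Finset X,
    (∀ A : X → F2, InKer a b lam A → (∀ x, x ∉ B → A x = 0) → A = fun _ => 0) ∧
    ∃ A : X → X → F2, ∀ x, InKer a b lam (A x) ∧ (x ∉ B → A x x = 1) ∧ (x ∈ B → A x = fun _ => 0) ∧
      ∀ y, y ∉ B → y ≠ x → A x y = 0 := by
  classical
  let P : Finset X → Prop := fun B => ∀ A : X → F2, InKer a b lam A → (∀ x, x ∉ B → A x = 0) → A = fun _ => 0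
  have h0 : P ∅ := by
    intro A _ h
    funext x
    exact h x (Finset.notMem_empty x)
  obtain ⟨B, hB, hmax⟩ := Set.exists_max_image {B : Finset X | P B} Finset.card (Set.toFinite _) ⟨∅, h0⟩
  refine ⟨B, hB, ?_⟩
  have key : ∀ x, ∃ A : X → F2, InKer a b lam A ∧ (x ∉ B → A x = 1) ∧ (x ∈ B → A = fun _ => 0) ∧
      ∀ y, y ∉ B → y ≠ x → A y = 0 := by
    intro x
    by_cases hx : x ∈ B
    · exact ⟨fun _ => 0, inKer_zero a b lam, fun h => absurd hx h, fun _ => rfl, fun _ _ _ => rfl⟩
    · have h1 : ¬ P (insert x B) := by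
        intro h
        have h2 := hmax _ h
        rw [Finset.card_insert_of_notMem hx] at h2
        omega
      obtain ⟨A, hA⟩ := not_forall.1 h1
      rw [Classical.not_imp, Classical.not_imp] at hA
      obtain ⟨hA1, hA2, hA3⟩ := hA
      have h3 : ∀ y, y ∉ B → y ≠ x → A y = 0 := by
        intro y hy hyx
        apply hA2
        rw [Finset.mem_insert, not_or]
        exact ⟨hyx, hy⟩
      have h4 : A x = 1 := by
        rcases f2_cases (A x) with h | h
        · exfalso
          apply hA3
          apply hB A hA1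
          intro y hy
          by_cases hyx : y = x
          · rw [hyx]; exact h
          · exact h3 y hy hyx
        · exact h
      exact ⟨A, hA1, fun _ => h4, fun h => absurd h hx, h3⟩
  choose A hA using key
  exact ⟨A, hA⟩

section classes

variable {H : Type} [AddCommGroup H] [Module F2 H] (c : (E → F2) →ₗ[F2] H)

/-- the class of `qq` of a sum lies in the span of the classes of the pieces -/
private theorem qq_sum_mem (lam : Finset E) (A : X → X → F2) (s : Finset X) :
    c (qq a b lam (fun y => ∑ x ∈ s, A x y)) ∈ Submodule.span F2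
      (Set.range fun i : X × X => c (pol a b lam (A i.1) (A i.2))) ⊔
      Submodule.span F2 (Set.range fun x : X => c (qq a b lam (A x))) := by
  classical
  induction s using Finset.induction_on with
  | empty =>
    have h1 : (fun y => ∑ x ∈ (∅ : Finset X), A x y) = fun _ => 0 := by
      funext y
      rw [Finset.sum_empty]
    have h2 : qq a b lam (fun y => ∑ x ∈ (∅ : Finset X), A x y) = 0 := by
      rw [h1]
      funext e
      show ind lam e * (0 * 0) = 0
      rw [mul_zero, mul_zero]
    rw [h2, map_zero]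
    exact Submodule.zero_mem _
  | insert x s hx ih =>
    have h1 : (fun y => ∑ z ∈ insert x s, A z y) = fun y => A x y + ∑ z ∈ s, A z y := by
      funext y
      rw [Finset.sum_insert hx]
    rw [h1, qq_add, map_add, map_add, pol_sum, map_sum]
    refine Submodule.add_mem _ (Submodule.add_mem _ ?_ ih) ?_
    · exact Submodule.mem_sup_right (Submodule.subset_span ⟨x, rfl⟩)
    · apply Submodule.sum_mem
      intro z _
      exact Submodule.mem_sup_left (Submodule.subset_span ⟨(x, z), rfl⟩)

/-- LEMMA P. An even set contains an even set of the same class all whose edges lie in the union of a basis of the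
points modulo the kernel of the adjacency matrix, and of `2 * k` further points. -/
theorem lemmaP {k : ℕ} (hk : Module.finrank F2 ((LinearMap.ker (bd a b)).map c) ≤ k) (lam : Finset E)
    (hlam : bd a b (ind lam) = 0) :
    ∃ B W : Finset X, (∀ A : X → F2, InKer a b lam A → (∀ x, x ∉ B → A x = 0) → A = fun _ => 0) ∧
      W.card ≤ B.card + 2 * k ∧ ∃ mu ⊆ lam, bd a b (ind mu) = 0 ∧ c (ind mu) = c (ind lam) ∧
      ∀ e ∈ mu, a e ∈ W ∧ b e ∈ W := by
  classical
  obtain ⟨B, hB, A, hA⟩ := exists_basis a b lam
  -- the generators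
  let g : (X × X) ⊕ X → (E → F2) := fun i => Sum.elim (fun i : X × X => pol a b lam (A i.1) (A i.2))
    (fun x : X => qq a b lam (A x)) i
  have hgbd : ∀ i, bd a b (g i) = 0 := by
    rintro (i | x)
    · exact bd_pol a b (hA i.1).1 (hA i.2).1
    · exact bd_qq a b (hA x).1
  -- the constant function is the sum of the kernel vectors
  have hone : (fun _ : X => (1 : F2)) = fun y => ∑ x, A x y := by
    have h1 := hB (fun y => 1 + ∑ x, A x y) (inKer_add a b (inKer_one a b hlam)
      (inKer_sum a b Finset.univ (fun x _ => (hA x).1))) (by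
        intro y hy
        rw [Finset.sum_eq_single y, (hA y).2.1 hy]
        · rfl
        · intro x _ hxy
          exact (hA x).2.2.2 y hy hxy.symm
        · intro h; exact absurd (Finset.mem_univ _) h)
    funext y
    have h2 : 1 + ∑ x, A x y = 0 := congrFun h1 y
    calc (1 : F2) = 1 + (∑ x, A x y + ∑ x, A x y) := by rw [f2_add_self, add_zero]
      _ = (1 + ∑ x, A x y) + ∑ x, A x y := by ring
      _ = ∑ x, A x y := by rw [h2, zero_add]
  have hlamq : ind lam = qq a b lam (fun y => ∑ x, A x y) := by
    rw [← hone]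
    funext e
    show ind lam e = ind lam e * (1 * 1)
    rw [mul_one, mul_one]
  have hmem : c (ind lam) ∈ Submodule.span F2 (Set.range fun i => c (g i)) := by
    rw [hlamq]
    have h1 := qq_sum_mem a b c lam A Finset.univ
    have h2 : Submodule.span F2 (Set.range fun i : X × X => c (pol a b lam (A i.1) (A i.2))) ≤
        Submodule.span F2 (Set.range fun i => c (g i)) := by
      apply Submodule.span_mono
      rintro _ ⟨i, rfl⟩
      exact ⟨Sum.inl i, rfl⟩
    have h3 : Submodule.span F2 (Set.range fun x : X => c (qq a b lam (A x))) ≤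
        Submodule.span F2 (Set.range fun i => c (g i)) := by
      apply Submodule.span_mono
      rintro _ ⟨i, rfl⟩
      exact ⟨Sum.inr i, rfl⟩
    exact (sup_le h2 h3) h1
  obtain ⟨κ, f, hf1, hf2, hf3⟩ := exists_linearIndependent' F2 (fun i => c (g i))
  have : Finite κ := Finite.of_injective f hf1
  have : Fintype κ := Fintype.ofFinite κ
  have hcard : Fintype.card κ ≤ k := by
    rw [← finrank_span_eq_card hf3, hf2]
    refine le_trans (Submodule.finrank_mono ?_) hk
    rw [Submodule.span_le]
    rintro _ ⟨i, rfl⟩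
    exact ⟨g i, hgbd i, rfl⟩
  rw [← hf2, Submodule.mem_span_range_iff_exists_fun] at hmem
  obtain ⟨t, ht⟩ := hmem
  let x : E → F2 := ∑ i, t i • g (f i)
  have hx1 : bd a b x = 0 := by
    rw [map_sum]
    apply Finset.sum_eq_zero
    intro i _
    rw [map_smul, hgbd, smul_zero]
  have hx2 : c x = c (ind lam) := by
    rw [← ht, map_sum]
    apply Finset.sum_congr rfl
    intro i _
    rw [map_smul]
    rfl
  let pts : (X × X) ⊕ X → Finset X := fun i => Sum.elim (fun i : X × X => {i.1, i.2}) (fun x : X => {x}) i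
  let W : Finset X := B ∪ Finset.univ.biUnion fun i => pts (f i)
  have hpts : ∀ i, (pts i).card ≤ 2 := by
    rintro (i | x)
    · exact Finset.card_le_two
    · show ({x} : Finset X).card ≤ 2
      rw [Finset.card_singleton]; omega
  have hW : W.card ≤ B.card + 2 * k := by
    calc W.card ≤ B.card + (Finset.univ.biUnion fun i => pts (f i)).card := Finset.card_union_le _ _
      _ ≤ B.card + Fintype.card κ * 2 := by
          apply Nat.add_le_add_left
          have := Finset.card_biUnion_le_card_mul (Finset.univ : Finset κ) (fun i => pts (f i)) 2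
            (fun i _ => hpts (f i))
          rwa [Finset.card_univ] at this
      _ ≤ _ := by omega
  have hAsupp : ∀ x y, A x y ≠ 0 → y ∈ B ∨ y = x := by
    intro x y h
    by_contra hcon
    rw [not_or] at hcon
    exact h ((hA x).2.2.2 y hcon.1 hcon.2)
  have hgsupp : ∀ i e, g i e ≠ 0 → e ∈ lam ∧ (a e ∈ B ∪ pts i) ∧ (b e ∈ B ∪ pts i) := by
    have hmul : ∀ (p q : F2), p * q ≠ 0 → p ≠ 0 ∧ q ≠ 0 := fun p q h => ⟨left_ne_zero_of_mul h, right_ne_zero_of_mul h⟩
    have hlam' : ∀ e, ind lam e ≠ 0 → e ∈ lam := by
      intro e h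
      by_contra h'
      apply h
      unfold ind
      rw [if_neg h']
    rintro (i | x) e h
    · have h' : ind lam e * (A i.1 (a e) * A i.2 (b e) + A i.2 (a e) * A i.1 (b e)) ≠ 0 := h
      obtain ⟨h1, h2⟩ := hmul _ _ h'
      refine ⟨hlam' e h1, ?_⟩
      have h3 : A i.1 (a e) * A i.2 (b e) ≠ 0 ∨ A i.2 (a e) * A i.1 (b e) ≠ 0 := by
        by_contra hcon
        push Not at hcon
        rw [hcon.1, hcon.2, add_zero] at h2
        exact h2 rfl
      show a e ∈ B ∪ {i.1, i.2} ∧ b e ∈ B ∪ {i.1, i.2}
      rw [Finset.mem_union, Finset.mem_union, Finset.mem_insert, Finset.mem_singleton, Finset.mem_insert,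
        Finset.mem_singleton]
      rcases h3 with h3 | h3
      · obtain ⟨h4, h5⟩ := hmul _ _ h3
        rcases hAsupp _ _ h4 with h6 | h6 <;> rcases hAsupp _ _ h5 with h7 | h7
        · exact ⟨Or.inl h6, Or.inl h7⟩
        · exact ⟨Or.inl h6, Or.inr (Or.inr h7)⟩
        · exact ⟨Or.inr (Or.inl h6), Or.inl h7⟩
        · exact ⟨Or.inr (Or.inl h6), Or.inr (Or.inr h7)⟩
      · obtain ⟨h4, h5⟩ := hmul _ _ h3
        rcases hAsupp _ _ h4 with h6 | h6 <;> rcases hAsupp _ _ h5 with h7 | h7
        · exact ⟨Or.inl h6, Or.inl h7⟩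
        · exact ⟨Or.inl h6, Or.inr (Or.inl h7)⟩
        · exact ⟨Or.inr (Or.inr h6), Or.inl h7⟩
        · exact ⟨Or.inr (Or.inr h6), Or.inr (Or.inl h7)⟩
    · have h' : ind lam e * (A x (a e) * A x (b e)) ≠ 0 := h
      obtain ⟨h1, h2⟩ := hmul _ _ h'
      obtain ⟨h4, h5⟩ := hmul _ _ h2
      refine ⟨hlam' e h1, ?_⟩
      show a e ∈ B ∪ {x} ∧ b e ∈ B ∪ {x}
      rw [Finset.mem_union, Finset.mem_union, Finset.mem_singleton, Finset.mem_singleton]
      exact ⟨hAsupp _ _ h4, hAsupp _ _ h5⟩
  have hxsupp : ∀ e, x e ≠ 0 → e ∈ lam ∧ a e ∈ W ∧ b e ∈ W := by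
    intro e he
    have h1 : ∃ i, g (f i) e ≠ 0 := by
      by_contra hcon
      push Not at hcon
      apply he
      show (∑ i, t i • g (f i)) e = 0
      rw [Finset.sum_apply]
      apply Finset.sum_eq_zero
      intro i _
      rw [Pi.smul_apply, hcon i, smul_zero]
    obtain ⟨i, hi⟩ := h1
    obtain ⟨h2, h3, h4⟩ := hgsupp _ _ hi
    have hsub : B ∪ pts (f i) ⊆ W :=
      Finset.union_subset_union_right (Finset.subset_biUnion_of_mem (fun i => pts (f i)) (Finset.mem_univ i))
    exact ⟨h2, hsub h3, hsub h4⟩
  refine ⟨B, W, hB, hW, supp x, ?_, ?_, ?_, ?_⟩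
  · intro e he
    rw [mem_supp] at he
    exact (hxsupp e he).1
  · rw [ind_supp]; exact hx1
  · rw [ind_supp]; exact hx2
  · intro e he
    rw [mem_supp] at he
    exact (hxsupp e he).2

end classes

end Pool.Agent.Helper58.OG
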