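import Pool.Agent.Helper35.OG.Tri
import Pool.Agent.Helper58.OG.Ker

/-!
# Faces with independent rows bound the genus of the second map from below
-/

set_option autoImplicit false

open Finset

namespace Pool.Agent.Helper58.OG

open Pool.Agent.Helper35.OG

variable {V : Type} [Fintype V] [DecidableEq V] {G : SimpleGraph V} [DecidableRel G.Adj]
variable (S T : GMap G)

private theorem ker_phi' {N : ℕ} (f : Fin N → S.Face)
    (h : ∀ t : Fin N → F2, (∀ g, ∑ i, t i * hf T (fac S (f i)) (fac S g) = 0) → t = 0)
    {x : (Fin N → F2) × (T.Face → F2)}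
    (hx : phi S T f x = 0) : x.1 = 0 ∧ ∀ p, x.2 (T.face (side p)) = x.2 (T.face p) := by
  have h3 : ∀ d : G.Dart, qf S T f x (d, true) + qf S T f x (d, false) = 0 := by
    intro d
    have h4 : qf S T f x ((erep d).1, true) + qf S T f x ((erep d).1, false) = 0 := congrFun hx (erep d)
    rcases erep_eq d with h | h
    · rw [h] at h4; exact h4
    · rw [h, phi_dart] at h4; exact h4
  have h4 : ∀ p, qf S T f x (side p) = qf S T f x p := by
    rintro ⟨d, s⟩
    have h5 := h3 d
    have h6 : qf S T f x (d, true) = qf S T f x (d, false) := by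
      calc qf S T f x (d, true) = qf S T f x (d, true) + (qf S T f x (d, false) + qf S T f x (d, false)) := by
            rw [f2_add_self, add_zero]
        _ = (qf S T f x (d, true) + qf S T f x (d, false)) + qf S T f x (d, false) := by ring
        _ = qf S T f x (d, false) := by rw [h5, zero_add]
    cases s
    · exact h6
    · exact h6.symm
  have hlift : IsLift T (fun p => ∑ i, x.1 i * fac S (f i) p) (fun p => x.2 (T.face p)) := by
    constructor
    · intro p
      show x.2 (T.face (T.nxt p)) = x.2 (T.face p)
      rw [face_nxt]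
    · intro p
      have := h4 p
      unfold qf at this
      show x.2 (T.face (side p)) + ∑ i, x.1 i * fac S (f i) (side p) = x.2 (T.face p) + ∑ i, x.1 i * fac S (f i) p
      rw [add_comm, this, add_comm]
  have h5 : ∀ gg : S.Face, ∑ i, x.1 i * hf T (fac S (f i)) (fac S gg) = 0 := by
    intro gg
    rw [← hf_sum_left S T Finset.univ x.1 (fun i => fac S (f i)) (fun i _ => fac_inv S (f i)) (fac_inv S gg),
      hf_eq S hlift (fac_inv S gg)]
    apply sum_across (P := fun p => x.2 (T.face p) * fac S gg p)
    intro p
    show x.2 (T.face (across p)) * fac S gg (across p) = x.2 (T.face p) * fac S gg p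
    unfold fac
    rw [face_across, face_across]
  have h6 : x.1 = 0 := h x.1 h5
  refine ⟨h6, ?_⟩
  intro p
  have h7 := h4 p
  unfold qf at h7
  rw [h6] at h7
  simpa using h7

private theorem rank_fin [Nontrivial V] (hG : G.Connected) {N : ℕ} (f : Fin N → S.Face)
    (h : ∀ t : Fin N → F2, (∀ g, ∑ i, t i * hf T (fac S (f i)) (fac S g) = 0) → t = 0) : (N : ℤ) ≤ T.eg := by
  have h5 := LinearMap.finrank_range_add_finrank_ker (phi S T f)
  rw [Module.finrank_prod, Module.finrank_fintype_fun_eq_card, Module.finrank_fintype_fun_eq_card,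
    Fintype.card_fin] at h5
  have h6 := Submodule.finrank_mono (phi_range S T f)
  have h7 := finrank_orth_einc hG S
  have h8 : Module.finrank F2 (LinearMap.ker (phi S T f)) ≤ 1 := by
    let K : Submodule F2 (T.Face → F2) :=
      { carrier := {B | ∀ y y', B y = B y'}
        add_mem' := by
          intro a b ha hb y y'
          rw [Pi.add_apply, Pi.add_apply, ha y y', hb y y']
        zero_mem' := by intro y y'; rfl
        smul_mem' := by
          intro r a ha y y'
          rw [Pi.smul_apply, Pi.smul_apply, ha y y'] }
    have hK : Module.finrank F2 K ≤ 1 := finrank_const_le K (fun w hw => hw)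
    have hconst : ∀ x ∈ LinearMap.ker (phi S T f), ∀ y y', x.2 y = x.2 y' := by
      intro x hx y y'
      obtain ⟨_, h10⟩ := ker_phi' S T f h hx
      obtain ⟨p, hp⟩ := face_surj T y
      obtain ⟨q, hq⟩ := face_surj T y'
      rw [← hp, ← hq]
      exact all_const T hG (fun p => x.2 (T.face p))
        (by intro p; show x.2 (T.face (T.nxt p)) = x.2 (T.face p); rw [face_nxt]) h10
        (by intro p; show x.2 (T.face (across p)) = x.2 (T.face p); rw [face_across]) p q
    let u : LinearMap.ker (phi S T f) →ₗ[F2] K :=
      { toFun := fun x => ⟨x.1.2, hconst x.1 x.2⟩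
        map_add' := by intro x y; rfl
        map_smul' := by intro c x; rfl }
    have hu : Function.Injective u := by
      intro x y hxy
      apply Subtype.ext
      apply Prod.ext
      · rw [(ker_phi' S T f h x.2).1, (ker_phi' S T f h y.2).1]
      · exact congrArg Subtype.val hxy
    exact (LinearMap.finrank_le_finrank_of_injective hu).trans hK
  have h9 : Nat.card T.Face = Fintype.card T.Face := Nat.card_eq_fintype_card
  unfold GMap.eg
  omega

/-- a set of faces whose rows are independent has at most as many members as the Euler genus of the second map -/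
theorem rank_bound [Nontrivial V] (hG : G.Connected) (B : Finset S.Face)
    (h : ∀ A : S.Face → F2, (∀ g, ∑ f, hf T (fac S g) (fac S f) * A f = 0) → (∀ f, f ∉ B → A f = 0) →
      A = fun _ => 0) : (B.card : ℤ) ≤ T.eg := by
  let e := B.equivFin
  apply rank_fin S T hG (fun i : Fin B.card => (e.symm i).1)
  intro t ht
  let A : S.Face → F2 := fun f => if hf : f ∈ B then t (e ⟨f, hf⟩) else 0
  have hA1 : ∀ f, f ∉ B → A f = 0 := fun f hf => dif_neg hf
  have hA2 : ∀ i, A (e.symm i).1 = t i := by
    intro i
    show (if hf : (e.symm i).1 ∈ B then t (e ⟨(e.symm i).1, hf⟩) else 0) = t i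
    rw [dif_pos (e.symm i).2]
    congr 1
    exact e.apply_symm_apply i
  have h1 := h A (by
    intro g
    have h2 : ∑ f, hf T (fac S g) (fac S f) * A f = ∑ f ∈ B, hf T (fac S g) (fac S f) * A f := by
      symm
      apply Finset.sum_subset (Finset.subset_univ _)
      intro f _ hf
      rw [hA1 f hf, mul_zero]
    rw [h2, ← Finset.sum_coe_sort, ← Equiv.sum_comp e.symm]
    refine Eq.trans ?_ (ht g)
    apply Finset.sum_congr rfl
    intro i _
    rw [hA2, hf_symm S T (fac_inv S g) (fac_inv S (e.symm i).1), mul_comm]) hA1
  funext i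
  rw [← hA2 i, h1]
  rfl

end Pool.Agent.Helper58.OG
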