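import Pool.Agent.Helper35.OG.Lower
import Pool.Agent.Helper58.OG.Rk
import Pool.Agent.Helper58.OG.Width

/-!
# The lower bound
-/

set_option autoImplicit false

open Finset

namespace Pool.Agent.Helper58.OG

open Pool.Agent.Helper35.OG

variable {V : Type} [Fintype V] [DecidableEq V] {G : SimpleGraph V} [DecidableRel G.Adj]

/-- a smallest subset of its class is not much larger than its set of points -/
theorem exists_small {X E : Type} [Fintype X] [DecidableEq X] [Fintype E] [DecidableEq E] (a b : E → X)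
    {H : Type} [AddCommGroup H] [Module F2 H] (c : (E → F2) →ₗ[F2] H) {k : ℕ}
    (hk : Module.finrank F2 ((LinearMap.ker (bd a b)).map c) ≤ k) (mu : Finset E) (hmu : bd a b (ind mu) = 0)
    (W : Finset X) (hW : ∀ e ∈ mu, a e ∈ W ∧ b e ∈ W) :
    ∃ nu ⊆ mu, bd a b (ind nu) = 0 ∧ c (ind nu) = c (ind mu) ∧ nu.card ≤ W.card + k := by
  classical
  obtain ⟨nu, ⟨h1, h2, h3⟩, hmin⟩ := Set.exists_min_image
    {ν : Finset E | ν ⊆ mu ∧ bd a b (ind ν) = 0 ∧ c (ind ν) = c (ind mu)} Finset.card (Set.toFinite _)
    ⟨mu, Finset.Subset.refl _, hmu, rfl⟩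
  refine ⟨nu, h1, h2, h3, ?_⟩
  by_contra hcon
  push Not at hcon
  obtain ⟨ν, hν1, hν2, hν3, hν4⟩ := exists_even a b c hk nu W (fun e he => hW e (h1 he)) hcon
  have h4 := hmin (nu \ ν) ⟨(Finset.sdiff_subset).trans h1, by
    rw [ind_sdiff hν1, map_add, h2, hν3, add_zero], by
    rw [ind_sdiff hν1, map_add, h3, hν4, add_zero]⟩
  rw [Finset.card_sdiff_of_subset hν1] at h4
  have h5 := Finset.card_pos.2 hν2
  have h6 := Finset.card_le_card hν1
  omega

/-- The lower bounds for the Euler genus of an orientable map. -/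
theorem lower_bounds [Nontrivial V] (hG : G.Connected) (S T : GMap G) (hT : T.Orientable) :
    (faceDefect S : ℤ) ≤ T.eg + 2 * S.eg ∧ (S.defect : ℤ) ≤ 2 * T.eg + 6 * S.eg := by
  classical
  obtain ⟨κ, hκ, hκT⟩ := hT
  obtain ⟨B, W, hB, hW, mu0, _, hmu1, hmu2, hmu3⟩ :=
    lemmaP (fa S T) (fb S T) (cls S T) (le_refl _) Finset.univ (bd_univ S T hκ hκT)
  obtain ⟨mu, hsub, hmu4, hmu5, hmu6⟩ :=
    exists_small (fa S T) (fb S T) (cls S T) (le_refl _) mu0 hmu1 W hmu3
  have hk := finrank_cls S T hG
  have hrk : (B.card : ℤ) ≤ T.eg := by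
    apply rank_bound S T hG B
    intro A hA hA'
    apply hB A _ hA'
    intro v
    rw [← hA v]
    apply Finset.sum_congr rfl
    intro u _
    rw [adj_univ S T hκ hκT]
  -- the correction of the orientation
  have h1 : tt S T (ind mu) - tt S T (ind Finset.univ) ∈ LinearMap.range (dl S) := by
    rw [← Submodule.Quotient.eq]
    exact hmu5.trans hmu2
  obtain ⟨ε, hε⟩ := h1
  let κ' : Flag G → F2 := fun p => κ p + pull ε p
  have hκ' : IsBand κ' := by
    intro p
    constructor
    · intro h
      have h2 : κ (across p) + pull ε (across p) = κ p + pull ε p := h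
      rw [pull_across] at h2
      exact (hκ p).1 (add_right_cancel h2)
    · intro h
      have h2 : κ (side p) + pull ε (side p) = κ p + pull ε p := h
      rw [pull_side] at h2
      exact (hκ p).2 (add_right_cancel h2)
  have hbad : ∀ r : S.Rep, bad S κ' r = tt S T (ind mu) r := by
    intro r
    have h2 : pull ε r.1 + pull ε (S.nxt r.1) = tt S T (ind mu) r - tt S T (ind Finset.univ) r := congrFun hε r
    rw [tt_univ S T hκ hκT] at h2
    show 1 + (κ r.1 + pull ε r.1) + (κ (S.nxt r.1) + pull ε (S.nxt r.1)) = tt S T (ind mu) r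
    calc 1 + (κ r.1 + pull ε r.1) + (κ (S.nxt r.1) + pull ε (S.nxt r.1)) =
        bad S κ r + (pull ε r.1 + pull ε (S.nxt r.1)) := by unfold bad; ring
      _ = tt S T (ind mu) r := by rw [h2]; ring
  have hmem : ∀ r : S.Rep, κ' (S.nxt r.1) = κ' r.1 → r ∈ mu.image (a0 S T) ∪ mu.image (b0 S T) := by
    intro r hr
    have h3 := (bad_eq_one S).2 hr
    rw [hbad r] at h3
    by_contra hcon
    rw [Finset.mem_union, not_or] at hcon
    have h4 : tt S T (ind mu) r = 0 := by
      show ∑ q, ind mu q * ((if a0 S T q = r then 1 else 0) + (if b0 S T q = r then 1 else 0)) = 0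
      apply Finset.sum_eq_zero
      intro q _
      by_cases hq : q ∈ mu
      · have h5 : ¬ a0 S T q = r := fun h => hcon.1 (h ▸ Finset.mem_image_of_mem _ hq)
        have h6 : ¬ b0 S T q = r := fun h => hcon.2 (h ▸ Finset.mem_image_of_mem _ hq)
        rw [if_neg h5, if_neg h6, add_zero, mul_zero]
      · unfold ind
        rw [if_neg hq, zero_mul]
    rw [h4] at h3
    exact zero_ne_one h3
  have hcard : (Finset.univ.filter fun r : S.Rep => κ' (S.nxt r.1) = κ' r.1).card ≤ 2 * mu.card := by
    calc _ ≤ (mu.image (a0 S T) ∪ mu.image (b0 S T)).card :=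
          Finset.card_le_card (fun r hr => hmem r (Finset.mem_filter.1 hr).2)
      _ ≤ _ := Finset.card_union_le _ _
      _ ≤ mu.card + mu.card := Nat.add_le_add Finset.card_image_le Finset.card_image_le
      _ = 2 * mu.card := by ring
  have hdef : S.defect ≤ S.badCorners κ' := Nat.sInf_le ⟨κ', hκ', rfl⟩
  rw [badCorners_eq] at hdef
  have hfac : faceDefect S ≤ Nat.card (badFaces S κ') := Nat.sInf_le ⟨κ', hκ', rfl⟩
  have hfac2 : Nat.card (badFaces S κ') ≤ W.card := by
    have h2 : badFaces S κ' ⊆ ↑W := by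
      rintro f ⟨p, hp, hp'⟩
      have h3 : κ' (S.nxt (S.rep p).1) = κ' (S.rep p).1 := by
        rcases rep_eq S p with h | h
        · rw [h]; exact hp'
        · rw [h, S.nxt_nxt]; exact hp'.symm
      have h4 : S.face (S.rep p).1 = f := by
        rw [inv_rep S S.face (face_nxt S) p]; exact hp
      have h5 := hmem _ h3
      rw [Finset.mem_union, Finset.mem_image, Finset.mem_image] at h5
      rcases h5 with ⟨e, he, he'⟩ | ⟨e, he, he'⟩
      · have h6 := (hmu3 e (hsub he)).1
        have h7 : fa S T e = f := by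
          unfold fa
          rw [he', h4]
        rw [h7] at h6
        exact h6
      · have h6 := (hmu3 e (hsub he)).2
        have h7 : fb S T e = f := by
          unfold fb
          rw [he', h4]
        rw [h7] at h6
        exact h6
    have h3 := Set.ncard_le_ncard h2 (Set.toFinite _)
    rw [Set.ncard_coe_finset] at h3
    exact h3
  constructor
  · omega
  · omega

end Pool.Agent.Helper58.OG
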