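import Pool.Agent.Helper35.OG.Upper
import Pool.Agent.Helper58.OG.Width

/-!
# Switching the bad corners keeps the faces without bad corners
-/

set_option autoImplicit false

open Finset

namespace Pool.Agent.Helper58.OG

open Pool.Agent.Helper35.OG

variable {V : Type} [Fintype V] [DecidableEq V] {G : SimpleGraph V} [DecidableRel G.Adj]

/-- one switch at two bad corners, which changes nothing at the other corners -/
private theorem switch_step' (M : GMap G) {κ : Flag G → F2} (hκ : IsBand κ) {p0 : Flag G}
    (hp0 : κ (M.nxt p0) = κ p0) :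
    ∃ M' : GMap G, (∀ x, κ (M.nxt x) ≠ κ x → M'.nxt x = M.nxt x) ∧
      Nat.card (M'.badFlags κ) + 4 ≤ Nat.card (M.badFlags κ) := by
  classical
  obtain ⟨p1, hb1, hκ1, hv1⟩ := exists_other_bad M hκ hp0
  -- choose the switch
  have hch : ∃ p', κ (M.nxt p') = κ p' ∧ κ p' ≠ κ p0 ∧ p'.1.fst = p0.1.fst ∧
      (∀ x y : Flag G, x.1.fst = y.1.fst → Relation.EqvGen (fun x y => y = sw M p0 p' x ∨ y = side x) x y) := by
    have e1 : p1 ≠ p0 := fun h => hκ1 (by rw [h])
    have e2 : p1 ≠ M.nxt p0 := fun h => hκ1 (by rw [h]; exact hp0)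
    rcases switch_conn M e1 e2 with h | h
    · exact ⟨p1, hb1, hκ1, hv1, h⟩
    · exact ⟨M.nxt p1, by rw [M.nxt_nxt]; exact hb1.symm, by rw [hb1]; exact hκ1, by rw [M.nxt_fst]; exact hv1, h⟩
  obtain ⟨p', hb, hκ', hv, hconn⟩ := hch
  have e1 : p' ≠ p0 := fun h => hκ' (by rw [h])
  have e2 : p' ≠ M.nxt p0 := fun h => hκ' (by rw [h]; exact hp0)
  let M' : GMap G :=
    { nxt := sw M p0 p'
      nxt_nxt := sw_sw M
      nxt_ne := sw_ne M
      nxt_fst := sw_fst M hv.symm
      conn := hconn }
  refine ⟨M', ?_, ?_⟩
  · intro x hx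
    show sw M p0 p' x = M.nxt x
    apply sw_other
    · intro h; rw [h] at hx; exact hx hp0
    · intro h; rw [h] at hx; exact hx hb
    · intro h; rw [h, M.nxt_nxt] at hx; exact hx hp0.symm
    · intro h; rw [h, M.nxt_nxt] at hx; exact hx hb.symm
  · let Q : Finset (Flag G) := {p0, M.nxt p0, p', M.nxt p'}
    have hQ : Q.card = 4 := by
      have d1 : p0 ≠ M.nxt p0 := (M.nxt_ne p0).symm
      have d2 : p' ≠ M.nxt p' := (M.nxt_ne p').symm
      have d3 : M.nxt p' ≠ p0 := fun h => hκ' (by rw [← hb, h])
      have d4 : M.nxt p' ≠ M.nxt p0 := fun h => e1 (nxt_inj M h)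
      show ({p0, M.nxt p0, p', M.nxt p'} : Finset (Flag G)).card = 4
      rw [Finset.card_insert_of_notMem, Finset.card_insert_of_notMem, Finset.card_insert_of_notMem,
        Finset.card_singleton]
      · rw [Finset.mem_singleton]; exact d2
      · rw [Finset.mem_insert, Finset.mem_singleton, not_or]; exact ⟨e2.symm, d4.symm⟩
      · rw [Finset.mem_insert, Finset.mem_insert, Finset.mem_singleton, not_or, not_or]
        exact ⟨d1, e1.symm, d3.symm⟩
    have hsub : M'.badFlags κ ∪ ↑Q ⊆ M.badFlags κ := by
      rintro x (hx | hx)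
      · have hx' : κ (sw M p0 p' x) = κ x := hx
        show κ (M.nxt x) = κ x
        by_cases c1 : x = p0
        · rw [c1, sw_q M e1 e2, hb] at hx'
          exact absurd hx' hκ'
        by_cases c2 : x = p'
        · rw [c2]; exact hb
        by_cases c3 : x = M.nxt p0
        · rw [c3, sw_nxt_q M e1 e2, hp0] at hx'
          exact absurd hx' hκ'
        by_cases c4 : x = M.nxt p'
        · rw [c4, M.nxt_nxt]; exact hb.symm
        · rw [sw_other M c1 c2 c3 c4] at hx'
          exact hx'
      · have hx' : x = p0 ∨ x = M.nxt p0 ∨ x = p' ∨ x = M.nxt p' := by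
          have : x ∈ ({p0, M.nxt p0, p', M.nxt p'} : Finset (Flag G)) := hx
          simpa using this
        show κ (M.nxt x) = κ x
        rcases hx' with h | h | h | h
        · rw [h]; exact hp0
        · rw [h, M.nxt_nxt]; exact hp0.symm
        · rw [h]; exact hb
        · rw [h, M.nxt_nxt]; exact hb.symm
    have hdis : Disjoint (M'.badFlags κ) (↑Q : Set (Flag G)) := by
      rw [Set.disjoint_left]
      intro x hx hxQ
      have hx0 : κ (sw M p0 p' x) = κ x := hx
      have hx' : x = p0 ∨ x = M.nxt p0 ∨ x = p' ∨ x = M.nxt p' := by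
        have : x ∈ ({p0, M.nxt p0, p', M.nxt p'} : Finset (Flag G)) := hxQ
        simpa using this
      rcases hx' with h | h | h | h
      · rw [h, sw_q M e1 e2, hb] at hx0
        exact hκ' hx0
      · rw [h, sw_nxt_q M e1 e2, hp0] at hx0
        exact hκ' hx0
      · rw [h, sw_p' M e1 e2, hp0] at hx0
        exact hκ' hx0.symm
      · rw [h, sw_nxt_p' M e1 e2, hb] at hx0
        exact hκ' hx0.symm
    have h1 := Set.ncard_le_ncard hsub (Set.toFinite _)
    rw [Set.ncard_union_eq hdis (Set.toFinite _) (Set.toFinite _), Set.ncard_coe_finset, hQ] at h1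
    exact h1

/-- all bad corners can be removed without changing the other corners -/
theorem exists_orientable' {κ : Flag G → F2} (hκ : IsBand κ) : ∀ n : ℕ, ∀ M : GMap G,
    Nat.card (M.badFlags κ) = n → ∃ T : GMap G, (∀ p, κ (T.nxt p) ≠ κ p) ∧
      ∀ x, κ (M.nxt x) ≠ κ x → T.nxt x = M.nxt x := by
  intro n
  induction n using Nat.strong_induction_on with
  | _ n ih =>
    intro M hM
    by_cases h : ∃ p0, κ (M.nxt p0) = κ p0
    · obtain ⟨p0, hp0⟩ := h
      obtain ⟨M', h1, h2⟩ := switch_step' M hκ hp0
      obtain ⟨T, hT1, hT2⟩ := ih (Nat.card (M'.badFlags κ)) (by omega) M' rfl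
      refine ⟨T, hT1, ?_⟩
      intro x hx
      rw [hT2 x (by rw [h1 x hx]; exact hx), h1 x hx]
    · push Not at h
      exact ⟨M, h, fun _ _ => rfl⟩

/-- the faces without bad corners are faces of the new map, and there is at least one other face -/
theorem faces_kept (M T : GMap G) {κ : Flag G → F2} (hT : ∀ x, κ (M.nxt x) ≠ κ x → T.nxt x = M.nxt x)
    (hne : (badFaces M κ).Nonempty) : Nat.card M.Face + 1 ≤ Nat.card T.Face + Nat.card (badFaces M κ) := by
  classical
  let W : Flag G → Option M.Face := fun p => if M.face p ∈ badFaces M κ then none else some (M.face p)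
  have hgood : ∀ p, M.face p ∉ badFaces M κ → T.nxt p = M.nxt p := by
    intro p hp
    apply hT
    intro h
    exact hp ⟨p, rfl, h⟩
  have hW : ∀ x y : Flag G, (y = T.nxt x ∨ y = across x) → W x = W y := by
    rintro x y (hxy | hxy)
    · rw [hxy]
      show (if M.face x ∈ badFaces M κ then none else some (M.face x)) =
        if M.face (T.nxt x) ∈ badFaces M κ then none else some (M.face (T.nxt x))
      by_cases h : M.face x ∈ badFaces M κ
      · rw [if_pos h]
        by_cases h' : M.face (T.nxt x) ∈ badFaces M κ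
        · rw [if_pos h']
        · exfalso
          have h1 := hgood _ h'
          rw [T.nxt_nxt] at h1
          apply h'
          have h2 : M.face (T.nxt x) = M.face x := by
            have h3 := face_nxt M (T.nxt x)
            rw [← h1] at h3
            exact h3.symm
          rw [h2]; exact h
      · rw [if_neg h, hgood x h, face_nxt, if_neg h]
    · rw [hxy]
      show (if M.face x ∈ badFaces M κ then none else some (M.face x)) =
        if M.face (across x) ∈ badFaces M κ then none else some (M.face (across x))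
      rw [face_across]
  let W' : T.Face → Option M.Face := Quot.lift W hW
  have hinj : ∀ p, W' (T.face p) = W p := fun p => rfl
  -- the image
  have himg : (Finset.univ.filter fun f : M.Face => f ∉ badFaces M κ).map Function.Embedding.some ∪ {none} ⊆
      Finset.univ.image W' := by
    intro o ho
    rw [Finset.mem_union, Finset.mem_map, Finset.mem_singleton] at ho
    rw [Finset.mem_image]
    rcases ho with ⟨f, hf, hfo⟩ | ho
    · rw [Finset.mem_filter] at hf
      obtain ⟨p, hp⟩ := face_surj M f
      refine ⟨T.face p, Finset.mem_univ _, ?_⟩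
      rw [hinj, ← hfo]
      show (if M.face p ∈ badFaces M κ then none else some (M.face p)) = some f
      rw [hp, if_neg hf.2]
    · obtain ⟨f, hf⟩ := hne
      obtain ⟨p, hp⟩ := face_surj M f
      refine ⟨T.face p, Finset.mem_univ _, ?_⟩
      rw [hinj, ho]
      show (if M.face p ∈ badFaces M κ then none else some (M.face p)) = none
      rw [hp, if_pos hf]
  have h1 := Finset.card_le_card himg
  rw [Finset.card_union_of_disjoint (by
    rw [Finset.disjoint_singleton_right, Finset.mem_map]
    rintro ⟨f, _, hf⟩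
    exact absurd hf (by simp)), Finset.card_map, Finset.card_singleton] at h1
  have h2 : (Finset.univ.image W').card ≤ Fintype.card T.Face := Finset.card_image_le
  have h3 : Nat.card (badFaces M κ) = (Finset.univ.filter fun f : M.Face => f ∈ badFaces M κ).card := by
    have h4 : badFaces M κ = ↑(Finset.univ.filter fun f : M.Face => f ∈ badFaces M κ) := by
      ext f
      simp
    rw [h4, Nat.card_coe_set_eq, Set.ncard_coe_finset]
    congr 1
    ext f
    simp
  have h5 := Finset.card_filter_add_card_filter_not (s := (Finset.univ : Finset M.Face))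
    (fun f : M.Face => f ∈ badFaces M κ)
  rw [Finset.card_univ] at h5
  rw [Nat.card_eq_fintype_card (α := M.Face), Nat.card_eq_fintype_card (α := T.Face)]
  omega

/-- The upper bound for the Euler genus of an orientable map. -/
theorem upper_bound (S : GMap G) (hS : ¬ S.Orientable) :
    ∃ T : GMap G, T.Orientable ∧ T.eg + 1 ≤ S.eg + faceDefect S := by
  obtain ⟨κ0, hκ0⟩ := exists_band (G := G)
  have hne : {n | ∃ κ, IsBand κ ∧ Nat.card (badFaces S κ) = n}.Nonempty := ⟨_, κ0, hκ0, rfl⟩
  obtain ⟨κ, hκ, hκn⟩ := Nat.sInf_mem hne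
  have hdef : Nat.card (badFaces S κ) = faceDefect S := hκn
  obtain ⟨T, hT1, hT2⟩ := exists_orientable' hκ (Nat.card (S.badFlags κ)) S rfl
  have hbad : (badFaces S κ).Nonempty := by
    by_contra h
    rw [Set.not_nonempty_iff_eq_empty] at h
    apply hS
    refine ⟨κ, hκ, ?_⟩
    intro p hp
    have : S.face p ∈ badFaces S κ := ⟨p, rfl, hp⟩
    rw [h] at this
    exact this
  refine ⟨T, ⟨κ, hκ, hT1⟩, ?_⟩
  have h1 := faces_kept S T hT2 hbad
  rw [hdef] at h1
  unfold GMap.eg
  omega

/-- Every bad face has two bad corners. -/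
theorem two_mul_faceDefect (S : GMap G) : 2 * faceDefect S ≤ S.defect := by
  classical
  obtain ⟨κ0, hκ0⟩ := exists_band (G := G)
  have hne : {n | ∃ κ, IsBand κ ∧ S.badCorners κ = n}.Nonempty := ⟨_, κ0, hκ0, rfl⟩
  obtain ⟨κ, hκ, hκn⟩ := Nat.sInf_mem hne
  have hdef : S.badCorners κ = S.defect := hκn
  rw [← hdef, badCorners_eq]
  have hfac : faceDefect S ≤ Nat.card (badFaces S κ) := Nat.sInf_le ⟨κ, hκ, rfl⟩
  refine le_trans (Nat.mul_le_mul_left 2 hfac) ?_
  have h3 : Nat.card (badFaces S κ) = (Finset.univ.filter fun f : S.Face => f ∈ badFaces S κ).card := by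
    have h4 : badFaces S κ = ↑(Finset.univ.filter fun f : S.Face => f ∈ badFaces S κ) := by
      ext f
      simp
    rw [h4, Nat.card_coe_set_eq, Set.ncard_coe_finset]
    congr 1
    ext f
    simp
  rw [h3]
  set J := Finset.univ.filter fun r : S.Rep => κ (S.nxt r.1) = κ r.1 with hJ
  have hfib : ∀ f ∈ (Finset.univ.filter fun f : S.Face => f ∈ badFaces S κ),
      2 ≤ (J.filter fun r => S.face r.1 = f).card := by
    intro f hf
    rw [Finset.mem_filter] at hf
    obtain ⟨p, hp, hp'⟩ := hf.2
    have h5 : 0 < (J.filter fun r => S.face r.1 = f).card := by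
      apply Finset.card_pos.2
      refine ⟨S.rep p, ?_⟩
      rw [Finset.mem_filter, hJ, Finset.mem_filter]
      refine ⟨⟨Finset.mem_univ _, ?_⟩, ?_⟩
      · rcases rep_eq S p with h | h
        · rw [h]; exact hp'
        · rw [h, S.nxt_nxt]; exact hp'.symm
      · rw [inv_rep S S.face (face_nxt S) p]; exact hp
    have h6 : (((J.filter fun r => S.face r.1 = f).card : ℕ) : F2) = 0 := by
      rw [← bad_face S hκ f, Finset.card_filter, hJ, Finset.sum_filter]
      push_cast
      apply Finset.sum_congr rfl
      intro r _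
      by_cases h : κ (S.nxt r.1) = κ r.1
      · rw [if_pos h, (bad_eq_one S).2 h, one_mul]
      · rw [if_neg h]
        rcases f2_cases (bad S κ r) with h7 | h7
        · rw [h7, zero_mul]
        · exact absurd ((bad_eq_one S).1 h7) h
    rw [ZMod.natCast_eq_zero_iff_even] at h6
    obtain ⟨m, hm⟩ := h6
    omega
  calc 2 * (Finset.univ.filter fun f : S.Face => f ∈ badFaces S κ).card
      = ∑ f ∈ (Finset.univ.filter fun f : S.Face => f ∈ badFaces S κ), 2 := by
        rw [Finset.sum_const, smul_eq_mul, mul_comm]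
    _ ≤ ∑ f ∈ (Finset.univ.filter fun f : S.Face => f ∈ badFaces S κ), (J.filter fun r => S.face r.1 = f).card :=
        Finset.sum_le_sum hfib
    _ ≤ ∑ f : S.Face, (J.filter fun r => S.face r.1 = f).card :=
        Finset.sum_le_sum_of_subset (Finset.subset_univ _)
    _ = J.card := (Finset.card_eq_sum_card_fiberwise (fun _ _ => Finset.mem_univ _)).symm

end Pool.Agent.Helper58.OG
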